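import Pool.Agent.N463.MI.Stm

/-!
Project MI, part F03: the final comparison.
-/

set_option autoImplicit false

noncomputable section

namespace Pool.Agent.N738.MI

open Pool.Agent.N463.MI

/-- Upper bound for the factorial. -/
lemma log_fac (j : ℕ) (hj : 1 ≤ j) :
    Real.log (j.factorial : ℝ) ≤ (j + 1) * Real.log j + 1 - j := by
  induction j, hj using Nat.le_induction with
  | base => simp
  | succ j hj ih =>
    have hj0 : (0 : ℝ) < j := by exact_mod_cast hj
    rw [Nat.factorial_succ, Nat.cast_mul, Real.log_mul (by positivity) (by positivity)]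
    have h1 : Real.log (j / (j + 1) : ℝ) ≤ j / (j + 1) - 1 :=
      Real.log_le_sub_one_of_pos (by positivity)
    rw [Real.log_div hj0.ne' (by positivity)] at h1
    have h2 : (j : ℝ) / (j + 1) - 1 = -1 / (j + 1) := by
      field_simp
      ring
    rw [h2] at h1
    have h3 : (j + 1 : ℝ) * (Real.log j - Real.log (j + 1)) ≤ -1 := by
      have h4 := mul_le_mul_of_nonneg_left h1 (show (0 : ℝ) ≤ j + 1 by positivity)
      refine h4.trans (le_of_eq ?_)
      field_simp
    push_cast
    nlinarith

/-- **F03.** -/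
theorem t_F03 (h2 : F02) (h4 : B04) : F03 := by
  intro n hn
  obtain ⟨s, hs⟩ : ∃ s : ℝ, s = √(n : ℝ) := ⟨_, rfl⟩
  have hn' : (150000 : ℝ) ≤ n := by exact_mod_cast hn
  have hs2 : s ^ 2 = n := by
    rw [hs]
    exact Real.sq_sqrt (by positivity)
  have hs0 : 0 ≤ s := by
    rw [hs]
    exact Real.sqrt_nonneg _
  have hs387 : 387 ≤ s := by
    by_contra h
    push Not at h
    nlinarith
  obtain ⟨j, hj⟩ : ∃ j : ℕ, j = ⌊65 / 100 * s⌋₊ := ⟨_, rfl⟩
  have hj1 : (j : ℝ) ≤ 65 / 100 * s := by
    rw [hj]
    exact Nat.floor_le (by positivity)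
  have hj2 : 65 / 100 * s < j + 1 := by
    rw [hj]
    exact Nat.lt_floor_add_one _
  have hj250 : (250 : ℝ) < j := by nlinarith
  have hj0 : (0 : ℝ) < j := by linarith
  have hj1n : 1 ≤ j := by
    have : (0 : ℝ) < j := hj0
    exact_mod_cast this
  obtain ⟨N, hN⟩ : ∃ N : ℝ, N = (n : ℝ) - j * (j + 1) / 2 := ⟨_, rfl⟩
  have hjs : (j : ℝ) ^ 2 ≤ 4225 / 10000 * s ^ 2 := by nlinarith
  have hN1 : 186 / 100 * (j : ℝ) ^ 2 ≤ N := by
    rw [hN]
    nlinarith
  have hNn : N ≤ s ^ 2 := by
    rw [hN, hs2]
    have : (0 : ℝ) ≤ j * (j + 1) / 2 := by positivity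
    linarith
  have hN0 : 0 < N := by
    have : 0 < 186 / 100 * (j : ℝ) ^ 2 := by positivity
    linarith
  have hcond : j * (j + 1) / 2 ≤ n := by
    have h5 : ((j * (j + 1) : ℕ) : ℝ) ≤ ((2 * n : ℕ) : ℝ) := by
      push_cast
      rw [hN] at hN0
      linarith
    have h6 : j * (j + 1) ≤ 2 * n := by exact_mod_cast h5
    omega
  have h5 := h2 j n hj1n hcond
  rw [← hN] at h5
  refine lt_of_lt_of_le ?_ h5
  have hf1 : (0 : ℝ) < j.factorial := by positivity
  have hf2 : (0 : ℝ) < (j - 1).factorial := by positivity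
  have hB : 0 < N ^ (j - 1) / (j.factorial * (j - 1).factorial) := by positivity
  rw [← Real.lt_log_iff_exp_lt hB]
  have hlog : Real.log (N ^ (j - 1) / (j.factorial * (j - 1).factorial))
      = (j - 1) * Real.log N - 2 * Real.log (j.factorial : ℝ) + Real.log j := by
    rw [Real.log_div (by positivity) (by positivity), Real.log_mul hf1.ne' hf2.ne', Real.log_pow]
    have h6 : Real.log (j.factorial : ℝ) = Real.log j + Real.log ((j - 1).factorial : ℝ) := by
      rw [← Real.log_mul hj0.ne' hf2.ne']
      congr 1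
      have h7 := Nat.mul_factorial_pred (show j ≠ 0 by omega)
      exact_mod_cast h7.symm
    rw [h6, Nat.cast_sub hj1n]
    push_cast
    ring
  rw [hlog]
  have hfac := log_fac j hj1n
  -- the logarithms
  have hL1 : Real.log N ≤ 2 * Real.log s := by
    have h6 := Real.log_le_log hN0 hNn
    rw [Real.log_pow] at h6
    exact_mod_cast h6
  have hs00 : 0 < s := by linarith
  have hL2 : Real.log j ≤ Real.log s := Real.log_le_log hj0 (by linarith)
  have hL3 : Real.log s ≤ s / 512 + 526 / 100 := by
    have h6 : Real.log (s / 512) ≤ s / 512 - 1 := Real.log_le_sub_one_of_pos (by positivity)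
    rw [Real.log_div hs00.ne' (by norm_num)] at h6
    have h7 : Real.log 512 = 9 * Real.log 2 := by
      rw [show (512 : ℝ) = 2 ^ 9 by norm_num, Real.log_pow]
      norm_num
    have h8 := Real.log_two_lt_d9
    rw [h7] at h6
    linarith
  have hexp : Real.exp (62 / 100) ≤ 186 / 100 := by
    have h6 := Real.exp_bound' (x := 62 / 100) (by norm_num) (by norm_num) (n := 8) (by norm_num)
    refine h6.trans ?_
    norm_num [Finset.sum_range_succ, Nat.factorial]
  have hL4 : 62 / 100 + 2 * Real.log j ≤ Real.log N := by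
    have h6 : Real.log (Real.exp (62 / 100) * (j : ℝ) ^ 2) ≤ Real.log N := by
      refine Real.log_le_log (by positivity) (le_trans ?_ hN1)
      exact mul_le_mul_of_nonneg_right hexp (by positivity)
    rw [Real.log_mul (Real.exp_pos _).ne' (by positivity), Real.log_exp, Real.log_pow] at h6
    push_cast at h6
    exact h6
  -- the exponent
  have hE : √(cst 2 * n) ≤ 78825 / 100000 * s := by
    rw [Real.sqrt_le_left (by positivity)]
    have h6 := h4.2.1
    rw [← hs2]
    nlinarith [sq_nonneg s]
  have h7 : (j : ℝ) * (262 / 100) ≤ j * (Real.log N - 2 * Real.log j + 2) :=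
    mul_le_mul_of_nonneg_left (by linarith) hj0.le
  nlinarith

end Pool.Agent.N738.MI

end
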